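import Pool.Agent.H48.ER.Targets

/-!
# MP_816b90_co: there is no minimal counterexample
-/

set_option autoImplicit false

open Pool.Agent.H48.ER

namespace Pool.Agent.H99.ER

theorem pf_FIN (_hDES : T_DES) (hPF : T_PF) (hCLA : T_CLA) (hCLB : T_CLB) (hCLC : T_CLC)
    (hLEA : T_LEA) : T_FIN := by
  intro V _ G S hMC
  obtain ⟨H, f, hc⟩ := exists_ctx hMC
  have key : ∀ N : ℕ, ∀ t ∈ S, f t = N → IsPc G (dn H f t) (upper H f t) := by
    intro N
    induction N using Nat.strong_induction_on with
    | _ N ih =>
      intro t ht hN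
      have hch : ∀ u, par H f u t → IsPc G (dn H f u) (upper H f u) := by
        intro u hu
        have h1 : t ∈ upper H f u := hu.1
        have huS : u ∈ S := (hc.sup u t h1.1).1
        exact ih (f u) (by rw [← hN]; exact h1.2) u huS rfl
      by_cases hex : ∃ u, par H f u t
      · obtain ⟨u, hu⟩ := hex
        obtain ⟨a, b, n, P, c, J, hpc⟩ := hch u hu
        have htQ : t ∈ upper H f u := hu.1
        have h1 := htQ
        rw [hpc.hQ] at h1
        rcases h1 with ⟨i, hi, hti⟩ | ⟨i, hi, hti⟩
        · exfalso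
          by_cases hs : ∃ s ∈ upper H f t, s ∈ kb P (dn H f u) (upper H f u)
          · obtain ⟨s, hs1, hs2⟩ := hs
            exact hCLB V G S H f t u a b n P c J i s hc ht hch hu hpc hi hti hs1 hs2
          · exact hCLA V G S H f t u a b n P c J i hc ht hch hu hpc hi hti
              fun s hs1 hs2 => hs ⟨s, hs1, hs2⟩
        · exact hCLC V G S H f t u a b n P c J i hc ht hch hu hpc hi hti
      · exact hLEA V G S H f t hc ht fun u hu => hex ⟨u, hu⟩
  have hne : S.Nonempty := by
    rw [Set.nonempty_iff_ne_empty]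
    intro h0
    apply hMC.nct
    refine CT.clique G S ?_
    intro u hu
    rw [h0] at hu
    exact absurd hu (Set.notMem_empty u)
  obtain ⟨t, ht, hmax⟩ := Set.exists_max_image S f S.toFinite hne
  obtain ⟨a, b, n, P, c, J, hpc⟩ := key (f t) t ht rfl
  have h3 := (hPF V G a b n P c J _ _ hpc).2.1
  have h0 : upper H f t = ∅ := by
    rw [Set.eq_empty_iff_forall_notMem]
    intro u hu
    have h1 : u ∈ S := (hc.sup t u hu.1).2
    exact absurd hu.2 (not_lt.2 (hmax u h1))
  rw [h0, Set.ncard_empty] at h3
  exact absurd h3 (by norm_num)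

end Pool.Agent.H99.ER
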