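import Pool.Agent.H48.ER.Targets

/-!
# MP_816b90_co: common neighbours of an even pair outside of an odd prism of the contraction
-/

set_option autoImplicit false

open Pool.Agent.H48.ER

namespace Pool.Agent.H99.ER

variable {V : Type} {G G' : SimpleGraph V} {a b : Fin 3 → V} {n : Fin 3 → ℕ} {P : Fin 3 → Set V}

/-- exchange of one rung of a prism -/
theorem w2_upd (hP : Prism G' a b n P) (i : Fin 3) (a' b' : V) (n' : ℕ) (R' : Set V)
    (h1 : IP G n' a' b' R') (hn : 1 ≤ n') (hd : ∀ j, j ≠ i → Disjoint R' (P j))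
    (hadj : ∀ j, j ≠ i → ∀ u ∈ R', ∀ v ∈ P j,
      G.Adj u v ↔ (u = a' ∧ v = a j) ∨ (u = b' ∧ v = b j))
    (hsame : ∀ j, j ≠ i → ∀ j', j' ≠ i → ∀ u ∈ P j, ∀ v ∈ P j', (G.Adj u v ↔ G'.Adj u v)) :
    Prism G (Function.update a i a') (Function.update b i b') (Function.update n i n')
      (Function.update P i R') where
  ip j := by
    by_cases h : j = i
    · subst h
      rw [Function.update_self, Function.update_self, Function.update_self, Function.update_self]
      exact h1
    · rw [Function.update_of_ne h, Function.update_of_ne h, Function.update_of_ne h,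
        Function.update_of_ne h]
      exact (hP.ip j).congr fun u hu v hv => hsame j h j h u hu v hv
  pos j := by
    by_cases h : j = i
    · subst h
      rw [Function.update_self]
      exact hn
    · rw [Function.update_of_ne h]
      exact hP.pos j
  dis j j' hjj := by
    by_cases h : j = i
    · subst h
      rw [Function.update_self, Function.update_of_ne hjj.symm]
      exact hd j' hjj.symm
    · by_cases h' : j' = i
      · subst h'
        rw [Function.update_self, Function.update_of_ne h]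
        exact (hd j h).symm
      · rw [Function.update_of_ne h, Function.update_of_ne h']
        exact hP.dis j j' hjj
  adj j j' hjj := by
    by_cases h : j = i
    · subst h
      rw [Function.update_self, Function.update_of_ne hjj.symm, Function.update_self,
        Function.update_of_ne hjj.symm, Function.update_self, Function.update_of_ne hjj.symm]
      exact hadj j' hjj.symm
    · by_cases h' : j' = i
      · subst h'
        rw [Function.update_self, Function.update_of_ne h, Function.update_self,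
          Function.update_of_ne h, Function.update_self, Function.update_of_ne h]
        intro u hu v hv
        rw [SimpleGraph.adj_comm, hadj j h v hv u hu]
        exact or_congr and_comm and_comm
      · rw [Function.update_of_ne h, Function.update_of_ne h', Function.update_of_ne h,
          Function.update_of_ne h', Function.update_of_ne h, Function.update_of_ne h']
        intro u hu v hv
        rw [hsame j h j' h' u hu v hv]
        exact hP.adj j j' hjj u hu v hv

/-- the new rung through `s`, `c`, `t`, interior case -/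
theorem w2_int (hG : NOP G) (hP : Prism G' a b n P) (hodd : ∀ j, Odd (n j)) (i : Fin 3)
    (s t c u w : V) (k m : ℕ) (L R : Set V) (hL : IP G k (a i) u L) (hR : IP G m w (b i) R)
    (hLP : L ⊆ P i) (hRP : R ⊆ P i) (hLR : Disjoint L R) (hNE : NE G L R)
    (hkm : k + m + 2 = n i) (hcP : c ∉ ver P) (hsL : s ∉ L) (hsR : s ∉ R) (htL : t ∉ L)
    (htR : t ∉ R)
    (hsj : ∀ j, j ≠ i → s ∉ P j) (htj : ∀ j, j ≠ i → t ∉ P j)
    (hsame : ∀ x ∈ ver P, ∀ y ∈ ver P, x ≠ s → x ≠ t → y ≠ s → y ≠ t →
      (G.Adj x y ↔ G'.Adj x y))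
    (hs : ∀ x ∈ ver P, x ≠ s → x ≠ t → (G.Adj s x ↔ x = u))
    (ht : ∀ x ∈ ver P, x ≠ s → x ≠ t → (G.Adj t x ↔ x = w))
    (hc : ∀ x ∈ ver P, x ≠ s → x ≠ t → ¬ G.Adj c x)
    (hcs : G.Adj c s) (hct : G.Adj c t) (hst : ¬ G.Adj s t) (hne : s ≠ t) : False := by
  have hLv : ∀ x ∈ L, x ∈ ver P ∧ x ≠ s ∧ x ≠ t := fun x hx =>
    ⟨⟨i, hLP hx⟩, fun e => hsL (e ▸ hx), fun e => htL (e ▸ hx)⟩
  have hRv : ∀ x ∈ R, x ∈ ver P ∧ x ≠ s ∧ x ≠ t := fun x hx =>
    ⟨⟨i, hRP hx⟩, fun e => hsR (e ▸ hx), fun e => htR (e ▸ hx)⟩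
  have hjv : ∀ j, j ≠ i → ∀ x ∈ P j, x ∈ ver P ∧ x ≠ s ∧ x ≠ t := fun j hj x hx =>
    ⟨⟨j, hx⟩, fun e => hsj j hj (e ▸ hx), fun e => htj j hj (e ▸ hx)⟩
  have huL : u ∈ L := hL.right_mem
  have hwR : w ∈ R := hR.left_mem
  have hcL : c ∉ L := fun h => hcP (hLv c h).1
  have hcR : c ∉ R := fun h => hcP (hRv c h).1
  have h1 : IP G (k + 1) (a i) s (insert s L) := by
    refine hL.snoc hsL fun x hx => ?_
    obtain ⟨q1, q2, q3⟩ := hLv x hx
    exact hs x q1 q2 q3
  have h2 : IP G (k + 1 + 1) (a i) c (insert c (insert s L)) := by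
    refine h1.snoc ?_ fun x hx => ?_
    · intro h
      rcases h with h | h
      · exact hcs.ne h
      · exact hcL h
    · rcases hx with hx | hx
      · subst hx
        exact ⟨fun _ => rfl, fun _ => hcs⟩
      · obtain ⟨q1, q2, q3⟩ := hLv x hx
        exact ⟨fun h => absurd h (hc x q1 q2 q3), fun h => absurd h q2⟩
  have h3 : IP G (k + 1 + 1 + 1) (a i) t (insert t (insert c (insert s L))) := by
    refine h2.snoc ?_ fun x hx => ?_
    · intro h
      rcases h with h | h | h
      · exact hct.ne h.symm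
      · exact hne h.symm
      · exact htL h
    · rcases hx with hx | hx | hx
      · subst hx
        exact ⟨fun _ => rfl, fun _ => hct.symm⟩
      · subst hx
        exact ⟨fun h => absurd h.symm hst, fun h => absurd h.symm hcs.ne⟩
      · obtain ⟨q1, q2, q3⟩ := hLv x hx
        constructor
        · intro h
          have h4 : x = w := (ht x q1 q2 q3).1 h
          rw [h4] at hx
          exact absurd hwR (Set.disjoint_left.1 hLR hx)
        · intro h
          exact absurd (h ▸ hx) hcL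
  have h4 : IP G (k + 1 + 1 + 1 + m + 1) (a i) (b i)
      (insert t (insert c (insert s L)) ∪ R) := by
    refine h3.append hR ?_ ?_
    · rw [Set.disjoint_left]
      intro x hx hxR
      rcases hx with hx | hx | hx | hx
      · exact htR (hx ▸ hxR)
      · exact hcR (hx ▸ hxR)
      · exact hsR (hx ▸ hxR)
      · exact Set.disjoint_left.1 hLR hx hxR
    · intro x hx y hy
      obtain ⟨q1, q2, q3⟩ := hRv y hy
      rcases hx with hx | hx | hx | hx
      · subst hx
        rw [ht y q1 q2 q3]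
        exact ⟨fun h => ⟨rfl, h⟩, fun h => h.2⟩
      · subst hx
        exact ⟨fun h => absurd h (hc y q1 q2 q3), fun h => absurd h.1 hct.ne⟩
      · subst hx
        rw [hs y q1 q2 q3]
        constructor
        · intro h
          exact absurd hy (Set.disjoint_left.1 hLR (h ▸ huL))
        · intro h
          exact absurd h.1 hne
      · exact ⟨fun h => absurd h (hNE x hx y hy), fun h => absurd (h.1 ▸ hx) htL⟩
  have h5 : Prism G (Function.update a i (a i)) (Function.update b i (b i))
      (Function.update n i (k + 1 + 1 + 1 + m + 1))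
      (Function.update P i (insert t (insert c (insert s L)) ∪ R)) := by
    refine w2_upd hP i _ _ _ _ h4 (by omega) ?_ ?_ ?_
    · intro j hj
      rw [Set.disjoint_left]
      intro x hx hxj
      rcases hx with (hx | hx | hx | hx) | hx
      · exact htj j hj (hx ▸ hxj)
      · exact hcP ⟨j, hx ▸ hxj⟩
      · exact hsj j hj (hx ▸ hxj)
      · exact hP.ne_of_mem (Ne.symm hj) (hLP hx) hxj rfl
      · exact hP.ne_of_mem (Ne.symm hj) (hRP hx) hxj rfl
    · intro j hj x hx y hy
      obtain ⟨q1, q2, q3⟩ := hjv j hj y hy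
      have haL : a i ∈ L := hL.left_mem
      have hbR : b i ∈ R := hR.right_mem
      have hfar : ∀ x, x ∉ L → x ∉ R → ¬ G.Adj x y →
          (G.Adj x y ↔ (x = a i ∧ y = a j) ∨ (x = b i ∧ y = b j)) := by
        intro x hxL hxR hxy
        constructor
        · intro h
          exact absurd h hxy
        · rintro (h | h)
          · exact absurd (h.1.symm ▸ haL) hxL
          · exact absurd (h.1.symm ▸ hbR) hxR
      rcases hx with (hx | hx | hx | hx) | hx
      · subst hx
        refine hfar x htL htR fun h => ?_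
        have h6 := (ht y q1 q2 q3).1 h
        exact hP.ne_of_mem (Ne.symm hj) (hRP hwR) hy h6.symm
      · subst hx
        exact hfar x hcL hcR (hc y q1 q2 q3)
      · subst hx
        refine hfar x hsL hsR fun h => ?_
        have h6 := (hs y q1 q2 q3).1 h
        exact hP.ne_of_mem (Ne.symm hj) (hLP huL) hy h6.symm
      · obtain ⟨r1, r2, r3⟩ := hLv x hx
        rw [hsame x r1 y q1 r2 r3 q2 q3]
        exact hP.adj i j (Ne.symm hj) x (hLP hx) y hy
      · obtain ⟨r1, r2, r3⟩ := hRv x hx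
        rw [hsame x r1 y q1 r2 r3 q2 q3]
        exact hP.adj i j (Ne.symm hj) x (hRP hx) y hy
    · intro j hj j' hj' x hx y hy
      obtain ⟨q1, q2, q3⟩ := hjv j hj x hx
      obtain ⟨r1, r2, r3⟩ := hjv j' hj' y hy
      exact hsame x q1 y r1 q2 q3 r2 r3
  refine hG _ _ _ _ h5 fun j => ?_
  by_cases h : j = i
  · subst h
    rw [Function.update_self]
    have h6 := hodd j
    rw [← hkm] at h6
    obtain ⟨z, hz⟩ := h6
    exact ⟨z + 1, by omega⟩
  · rw [Function.update_of_ne h]
    exact hodd j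

/-- the new rung through `s`, `c`, `t`, corner case -/
theorem w2_cor (hG : NOP G) (hP : Prism G' a b n P) (hodd : ∀ j, Odd (n j)) (i : Fin 3)
    (s t c r : V) (m : ℕ) (R : Set V) (hR : IP G m r (b i) R)
    (hRP : R ⊆ P i) (hkm : m + 1 = n i) (hcP : c ∉ ver P) (hsR : s ∉ R) (htR : t ∉ R)
    (haR : a i ∉ R)
    (hsj : ∀ j, j ≠ i → s ∉ P j) (htj : ∀ j, j ≠ i → t ∉ P j)
    (hsame : ∀ x ∈ ver P, ∀ y ∈ ver P, x ≠ s → x ≠ t → y ≠ s → y ≠ t →
      (G.Adj x y ↔ G'.Adj x y))
    (hs : ∀ x ∈ ver P, x ≠ s → x ≠ t → (G.Adj s x ↔ ∃ j, j ≠ i ∧ x = a j))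
    (ht : ∀ x ∈ ver P, x ≠ s → x ≠ t → (G.Adj t x ↔ x = r))
    (hc : ∀ x ∈ ver P, x ≠ s → x ≠ t → ¬ G.Adj c x)
    (hcs : G.Adj c s) (hct : G.Adj c t) (hst : ¬ G.Adj s t) (hne : s ≠ t) : False := by
  have hRv : ∀ x ∈ R, x ∈ ver P ∧ x ≠ s ∧ x ≠ t := fun x hx =>
    ⟨⟨i, hRP hx⟩, fun e => hsR (e ▸ hx), fun e => htR (e ▸ hx)⟩
  have hjv : ∀ j, j ≠ i → ∀ x ∈ P j, x ∈ ver P ∧ x ≠ s ∧ x ≠ t := fun j hj x hx =>
    ⟨⟨j, hx⟩, fun e => hsj j hj (e ▸ hx), fun e => htj j hj (e ▸ hx)⟩
  have hrR : r ∈ R := hR.left_mem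
  have hbR : b i ∈ R := hR.right_mem
  have hcR : c ∉ R := fun h => hcP (hRv c h).1
  have h1 : IP G (m + 1) t (b i) (insert t R) := by
    refine hR.cons htR fun x hx => ?_
    obtain ⟨q1, q2, q3⟩ := hRv x hx
    exact ht x q1 q2 q3
  have h2 : IP G (m + 1 + 1) c (b i) (insert c (insert t R)) := by
    refine h1.cons ?_ fun x hx => ?_
    · intro h
      rcases h with h | h
      · exact hct.ne h
      · exact hcR h
    · rcases hx with hx | hx
      · subst hx
        exact ⟨fun _ => rfl, fun _ => hct⟩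
      · obtain ⟨q1, q2, q3⟩ := hRv x hx
        exact ⟨fun h => absurd h (hc x q1 q2 q3), fun h => absurd h q3⟩
  have h3 : IP G (m + 1 + 1 + 1) s (b i) (insert s (insert c (insert t R))) := by
    refine h2.cons ?_ fun x hx => ?_
    · intro h
      rcases h with h | h | h
      · exact hcs.ne h.symm
      · exact hne h
      · exact hsR h
    · rcases hx with hx | hx | hx
      · subst hx
        exact ⟨fun _ => rfl, fun _ => hcs.symm⟩
      · subst hx
        exact ⟨fun h => absurd h hst, fun h => absurd h.symm hct.ne⟩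
      · obtain ⟨q1, q2, q3⟩ := hRv x hx
        constructor
        · intro h
          obtain ⟨j, hj, hxj⟩ := (hs x q1 q2 q3).1 h
          exact absurd hxj.symm (hP.ne_of_mem hj (hP.a_mem j) (hRP hx))
        · intro h
          exact absurd (h ▸ hx) hcR
  have h5 : Prism G (Function.update a i s) (Function.update b i (b i))
      (Function.update n i (m + 1 + 1 + 1))
      (Function.update P i (insert s (insert c (insert t R)))) := by
    refine w2_upd hP i _ _ _ _ h3 (by omega) ?_ ?_ ?_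
    · intro j hj
      rw [Set.disjoint_left]
      intro x hx hxj
      rcases hx with hx | hx | hx | hx
      · exact hsj j hj (hx ▸ hxj)
      · exact hcP ⟨j, hx ▸ hxj⟩
      · exact htj j hj (hx ▸ hxj)
      · exact hP.ne_of_mem (Ne.symm hj) (hRP hx) hxj rfl
    · intro j hj x hx y hy
      obtain ⟨q1, q2, q3⟩ := hjv j hj y hy
      rcases hx with hx | hx | hx | hx
      · subst hx
        rw [hs y q1 q2 q3]
        constructor
        · rintro ⟨j', hj', h⟩
          have h6 : j' = j := hP.rung (hP.a_mem j') (h ▸ hy)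
          rw [h6] at h
          exact Or.inl ⟨rfl, h⟩
        · rintro (h | h)
          · exact ⟨j, hj, h.2⟩
          · exact absurd (h.1.symm ▸ hbR) hsR
      · subst hx
        constructor
        · intro h
          exact absurd h (hc y q1 q2 q3)
        · rintro (h | h)
          · exact absurd h.1 hcs.ne
          · exact absurd (h.1.symm ▸ hbR) hcR
      · subst hx
        constructor
        · intro h
          have h6 := (ht y q1 q2 q3).1 h
          exact absurd h6.symm (hP.ne_of_mem (Ne.symm hj) (hRP hrR) hy)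
        · rintro (h | h)
          · exact absurd h.1.symm hne
          · exact absurd (h.1.symm ▸ hbR) htR
      · obtain ⟨r1, r2, r3⟩ := hRv x hx
        rw [hsame x r1 y q1 r2 r3 q2 q3, hP.adj i j (Ne.symm hj) x (hRP hx) y hy]
        constructor
        · rintro (h | h)
          · exact absurd (h.1 ▸ hx) haR
          · exact Or.inr h
        · rintro (h | h)
          · exact absurd h.1 r2
          · exact Or.inr h
    · intro j hj j' hj' x hx y hy
      obtain ⟨q1, q2, q3⟩ := hjv j hj x hx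
      obtain ⟨r1, r2, r3⟩ := hjv j' hj' y hy
      exact hsame x q1 y r1 q2 q3 r2 r3
  refine hG _ _ _ _ h5 fun j => ?_
  by_cases h : j = i
  · subst h
    rw [Function.update_self]
    have h6 := hodd j
    rw [← hkm] at h6
    obtain ⟨z, hz⟩ := h6
    exact ⟨z + 1, by omega⟩
  · rw [Function.update_of_ne h]
    exact hodd j

/-- every vertex of a prism has a neighbour -/
theorem w2_nb (hP : Prism G a b n P) (v : V) (hv : v ∈ ver P) : ∃ w, G.Adj v w := by
  obtain ⟨i, hi⟩ := hv
  obtain ⟨g, _, _, _, ga, hR⟩ := hP.ip i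
  rw [hR] at hi
  obtain ⟨j, hj, rfl⟩ := hi
  have hn := hP.pos i
  by_cases h : j < n i
  · exact ⟨g (j + 1), (ga j (j + 1) hj (by omega)).2 (Or.inl rfl)⟩
  · exact ⟨g (j - 1), (ga j (j - 1) hj (by omega)).2 (Or.inr (by omega))⟩

theorem w2_corner (hSPC : T_SPC) (V : Type) (G : SimpleGraph V) (p q : V) (a b : Fin 3 → V)
    (n : Fin 3 → ℕ) (P : Fin 3 → Set V) (c : V) (hNH : NOH G) (hNP : NOP G) (hE : EvP G p q)
    (hP : Prism (ctr G p q) a b n P) (hodd : ∀ i, Odd (n i)) (hc : c ∉ ver P)
    (hcp : G.Adj c p) (hcq : G.Adj c q) (hno : ∀ g ∈ ver P, g ≠ p → ¬ G.Adj c g) (i : Fin 3)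
    (hpi : p = a i) (hqv : q ∉ ver P) : False := by
  obtain ⟨hpq, hnadj, _⟩ := hE
  obtain ⟨-, r, m, R, hR, hpR, hPi, hm, halt⟩ :=
    hSPC V G p q a b n P i hNH hNP ⟨hpq, hnadj, by assumption⟩ hP hodd hpi
  have hRP : R ⊆ P i := by
    rw [hPi]
    exact Set.subset_insert _ _
  have hqR : q ∉ R := fun h => hqv ⟨i, hRP h⟩
  have haR : a i ∉ R := by
    rw [← hpi]
    exact hpR
  have hpj : ∀ j, j ≠ i → p ∉ P j := fun j hj h =>
    hP.ne_of_mem (Ne.symm hj) (hpi ▸ hP.a_mem i) h rfl
  have hqj : ∀ j, j ≠ i → q ∉ P j := fun j _ h => hqv ⟨j, h⟩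
  rcases halt with ⟨h1, h2⟩ | ⟨h1, h2⟩
  · refine w2_cor hNP hP hodd i p q c r m R hR hRP hm hc hpR hqR haR hpj hqj ?_ ?_ ?_ ?_ hcp hcq
      hnadj hpq
    · intro x _ y _ h3 h4 h5 h6
      exact (ctr_adj_of_ne h3 h4 h5 h6).symm
    · intro x hx h3 _
      exact h1 x hx h3
    · intro x hx h3 _
      exact h2 x hx h3
    · intro x hx h3 _
      exact hno x hx h3
  · refine w2_cor hNP hP hodd i q p c r m R hR hRP hm hc hqR hpR haR hqj hpj ?_ ?_ ?_ ?_ hcq hcp
      (fun h => hnadj h.symm) hpq.symm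
    · intro x _ y _ h3 h4 h5 h6
      exact (ctr_adj_of_ne h4 h3 h6 h5).symm
    · intro x hx _ h4
      exact h1 x hx h4
    · intro x hx _ h4
      exact h2 x hx h4
    · intro x hx _ h4
      exact hno x hx h4

theorem pf_W2 (hSPI : T_SPI) (hSPC : T_SPC) : T_W2 := by
  intro V G p q a b n P c hNH hNP hE hP hodd hc hcp hcq
  by_contra hcon
  have hno : ∀ g ∈ ver P, g ≠ p → ¬ G.Adj c g := fun g hg hgp hadj => hcon ⟨g, hg, hgp, hadj⟩
  have hqv : q ∉ ver P := by
    intro h
    obtain ⟨w, hw⟩ := w2_nb hP q h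
    exact ctr_not_adj hw
  have hpv : p ∈ ver P := by
    by_contra hp
    have h1 : Prism G a b n P := by
      refine hP.congr fun u hu v hv => ?_
      have e1 : u ≠ p := fun e => hp (e ▸ hu)
      have e2 : u ≠ q := fun e => hqv (e ▸ hu)
      have e3 : v ≠ p := fun e => hp (e ▸ hv)
      have e4 : v ≠ q := fun e => hqv (e ▸ hv)
      exact (ctr_adj_of_ne e1 e2 e3 e4).symm
    exact hNP _ _ _ _ h1 hodd
  obtain ⟨i, hpi⟩ := hpv
  by_cases ha : p = a i
  · exact w2_corner hSPC V G p q a b n P c hNH hNP hE hP hodd hc hcp hcq hno i ha hqv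
  by_cases hb : p = b i
  · exact w2_corner hSPC V G p q b a n P c hNH hNP hE hP.flip hodd hc hcp hcq hno i hb hqv
  obtain ⟨-, u, w, k, m, L, R, hL, hR, hpL, hpR, hPi, hkm, hLR, hNE, halt⟩ :=
    hSPI V G p q a b n P i hNH hNP hE hP hodd hpi ha hb
  obtain ⟨hpq, hnadj, _⟩ := hE
  have hLP : L ⊆ P i := by
    rw [hPi]
    exact fun x hx => Or.inl (Or.inl hx)
  have hRP : R ⊆ P i := by
    rw [hPi]
    exact fun x hx => Or.inr hx
  have hqL : q ∉ L := fun h => hqv ⟨i, hLP h⟩
  have hqR : q ∉ R := fun h => hqv ⟨i, hRP h⟩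
  have hpj : ∀ j, j ≠ i → p ∉ P j := fun j hj h => hP.ne_of_mem (Ne.symm hj) hpi h rfl
  have hqj : ∀ j, j ≠ i → q ∉ P j := fun j _ h => hqv ⟨j, h⟩
  rcases halt with ⟨h1, h2⟩ | ⟨h1, h2⟩
  · refine w2_int hNP hP hodd i p q c u w k m L R hL hR hLP hRP hLR hNE hkm hc hpL hpR hqL hqR
      hpj hqj ?_ ?_ ?_ ?_ hcp hcq hnadj hpq
    · intro x _ y _ h3 h4 h5 h6
      exact (ctr_adj_of_ne h3 h4 h5 h6).symm
    · intro x hx h3 _
      exact h1 x hx h3
    · intro x hx h3 _
      exact h2 x hx h3
    · intro x hx h3 _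
      exact hno x hx h3
  · refine w2_int hNP hP hodd i q p c u w k m L R hL hR hLP hRP hLR hNE hkm hc hqL hqR hpL hpR
      hqj hpj ?_ ?_ ?_ ?_ hcq hcp (fun h => hnadj h.symm) hpq.symm
    · intro x _ y _ h3 h4 h5 h6
      exact (ctr_adj_of_ne h4 h3 h6 h5).symm
    · intro x hx _ h4
      exact h1 x hx h4
    · intro x hx _ h4
      exact h2 x hx h4
    · intro x hx _ h4
      exact hno x hx h4

end Pool.Agent.H99.ER
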